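import Mathlib
import Pool.Agent.Helper259.HtDef

set_option autoImplicit false

/-!
# Instances on the algebraic closure of the rational numbers
-/

namespace Pool.Agent.R407.USB

open Pool.Agent.Helper259.AbsHt (Qbar)

instance qbAlg : Algebra.IsAlgebraic ℚ Qbar := by
  have h : @Algebra.IsAlgebraic ℚ Qbar _ _ (AlgebraicClosure.instAlgebra ℚ) :=
    AlgebraicClosure.isAlgebraic ℚ
  have e : (AlgebraicClosure.instAlgebra ℚ : Algebra ℚ Qbar) = DivisionRing.toRatAlgebra :=
    Subsingleton.elim _ _
  rw [e] at h
  exact h

instance qbClosure : IsAlgClosure ℚ Qbar := ⟨inferInstance, inferInstance⟩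

instance qbNormal : Normal ℚ Qbar := inferInstance

instance qbGalois : IsGalois ℚ Qbar where

end Pool.Agent.R407.USB
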