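import Mathlib
import Pool.Agent.R407.USB.Base

set_option autoImplicit false

/-!
# Cyclotomic characters and the cyclic fields of two-power degree
-/

namespace Pool.Agent.R407.USB

open Module
open Pool.Agent.Helper259.AbsHt (Qbar)

/-- the absolute Galois group -/
abbrev Gam : Type := Qbar ≃ₐ[ℚ] Qbar

/-- forgetting the algebra structure -/
noncomputable def toRE : Gam →* (Qbar ≃+* Qbar) where
  toFun σ := σ.toRingEquiv
  map_one' := rfl
  map_mul' _ _ := rfl

lemma card_roots (N : ℕ) [NeZero N] : Nat.card (rootsOfUnity N Qbar) = N :=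
  HasEnoughRootsOfUnity.natCard_rootsOfUnity Qbar N

/-- the cyclotomic character modulo `N` -/
noncomputable def chi (N : ℕ) [NeZero N] : Gam →* (ZMod N)ˣ :=
  (modularCyclotomicCharacter Qbar (card_roots N)).comp toRE

lemma chi_spec (N : ℕ) [NeZero N] (σ : Gam) (z : Qbar) (hz : z ^ N = 1) :
    σ z = z ^ (chi N σ : ZMod N).val := by
  have hz0 : z ≠ 0 := by
    rintro rfl
    rw [zero_pow (NeZero.ne N)] at hz
    exact zero_ne_one hz
  have h := modularCyclotomicCharacter.spec (L := Qbar) (card_roots N) (toRE σ)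
    (t := Units.mk0 z hz0) (by
      rw [mem_rootsOfUnity]
      ext
      simpa using hz)
  exact h

lemma chi_unique (N : ℕ) [NeZero N] (σ : Gam) (c : ZMod N)
    (hc : ∀ z : Qbar, z ^ N = 1 → σ z = z ^ c.val) : (chi N σ : ZMod N) = c := by
  have h := modularCyclotomicCharacter.unique (L := Qbar) (card_roots N) (toRE σ) (c := c)
    (fun t ht => by
      have h1 : (t : Qbar) ^ N = 1 := by
        rw [mem_rootsOfUnity] at ht
        have := congrArg (fun u : Qbarˣ => (u : Qbar)) ht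
        simpa using this
      exact hc t h1)
  exact h.symm

lemma pow_eq_of_modEq {N a b : ℕ} {z : Qbar} (hz : z ^ N = 1) (h : a ≡ b [MOD N]) :
    z ^ a = z ^ b := by
  rw [pow_eq_pow_mod a hz, pow_eq_pow_mod b hz, h]

/-- irreducibility of the cyclotomic polynomial -/
lemma exists_sigma (N : ℕ) [NeZero N] (a : ℕ) (ha : a.Coprime N) :
    ∃ σ : Gam, ∀ z : Qbar, z ^ N = 1 → σ z = z ^ a := by
  obtain ⟨ζ, hζ⟩ := HasEnoughRootsOfUnity.exists_primitiveRoot Qbar N
  have hζa : IsPrimitiveRoot (ζ ^ a) N := hζ.pow_of_coprime a ha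
  have h1 : minpoly ℚ ζ = minpoly ℚ (ζ ^ a) := by
    rw [← Polynomial.cyclotomic_eq_minpoly_rat hζ (NeZero.pos N),
      ← Polynomial.cyclotomic_eq_minpoly_rat hζa (NeZero.pos N)]
  obtain ⟨σ, hσ⟩ := (isConjRoot_iff_exists_algEquiv (K := ℚ) (x := ζ ^ a) (y := ζ)).mp (by
    rw [isConjRoot_def]
    exact h1.symm)
  refine ⟨σ, fun z hz => ?_⟩
  obtain ⟨i, -, rfl⟩ := hζ.eq_pow_of_pow_eq_one hz
  rw [map_pow, hσ, ← pow_mul, ← pow_mul, mul_comm]

/-- an automorphism trivial on one cyclotomic field and prescribed on another one -/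
lemma exists_tau (M p : ℕ) [NeZero M] [NeZero p] (hcop : M.Coprime p) (σ : Gam) :
    ∃ τ : Gam, (∀ z : Qbar, z ^ M = 1 → τ z = z) ∧ (∀ z : Qbar, z ^ p = 1 → τ z = σ z) := by
  set b := (chi p σ : ZMod p).val with hb
  have hbp : b.Coprime p := ZMod.val_coe_unit_coprime _
  obtain ⟨a, ha1, ha2⟩ := Nat.chineseRemainder hcop 1 b
  have haM : a.Coprime M := by
    rw [Nat.Coprime, ha1.gcd_eq]
    simp
  have hap : a.Coprime p := by
    rw [Nat.Coprime, ha2.gcd_eq]
    exact hbp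
  have : NeZero (M * p) := ⟨mul_ne_zero (NeZero.ne M) (NeZero.ne p)⟩
  obtain ⟨τ, hτ⟩ := exists_sigma (M * p) a (Nat.Coprime.mul_right haM hap)
  refine ⟨τ, fun z hz => ?_, fun z hz => ?_⟩
  · rw [hτ z (by rw [pow_mul, hz, one_pow]), pow_eq_of_modEq hz ha1, pow_one]
  · rw [hτ z (by rw [mul_comm, pow_mul, hz, one_pow]), pow_eq_of_modEq hz ha2, chi_spec p σ z hz]

/-- the subgroup of the automorphisms acting on the `p`-th roots of unity through `2^n`-th
powers -/
noncomputable def Hsub (p n : ℕ) [NeZero p] : Subgroup Gam :=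
  Subgroup.comap (chi p) (powMonoidHom (2 ^ n) : (ZMod p)ˣ →* (ZMod p)ˣ).range

/-- the field of degree `2^n` -/
noncomputable def Lf (p n : ℕ) [NeZero p] : IntermediateField ℚ Qbar :=
  IntermediateField.fixedField (Hsub p n)

lemma mem_Lf (p n : ℕ) [NeZero p] (x : Qbar) : x ∈ Lf p n ↔ ∀ σ ∈ Hsub p n, σ x = x :=
  IntermediateField.mem_fixedField_iff _ _

/-- an automorphism trivial on the `p`-th roots of unity is trivial on `Lf p n` -/
lemma fix_of_trivial (p n : ℕ) [NeZero p] (ρ : Gam) (hρ : ∀ z : Qbar, z ^ p = 1 → ρ z = z)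
    (x : Qbar) (hx : x ∈ Lf p n) : ρ x = x := by
  refine (mem_Lf p n x).1 hx ρ ?_
  have h1 : (chi p ρ : ZMod p) = ((1 : (ZMod p)ˣ) : ZMod p) := by
    refine chi_unique p ρ _ fun z hz => ?_
    rw [hρ z hz]
    by_cases hp : p = 1
    · subst hp
      rw [pow_one] at hz
      rw [hz, one_pow]
    · have : Fact (1 < p) := ⟨by have := NeZero.ne p; omega⟩
      rw [Units.val_one, ZMod.val_one, pow_one]
  have h2 : chi p ρ = 1 := Units.ext h1
  rw [Hsub, Subgroup.mem_comap, h2]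
  exact one_mem _

lemma agree (p n : ℕ) [NeZero p] (σ τ : Gam) (h : ∀ z : Qbar, z ^ p = 1 → τ z = σ z)
    (x : Qbar) (hx : x ∈ Lf p n) : τ x = σ x := by
  have h1 := fix_of_trivial p n (σ⁻¹ * τ) (fun z hz => by
    show σ.symm (τ z) = z
    rw [h z hz, AlgEquiv.symm_apply_apply]) x hx
  have h2 : σ.symm (τ x) = x := h1
  have h3 := congrArg σ h2
  rwa [AlgEquiv.apply_symm_apply] at h3

lemma Hsub_normal (p n : ℕ) [NeZero p] : (Hsub p n).Normal := by
  unfold Hsub
  infer_instance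

lemma Hsub_isClosed (p n : ℕ) [NeZero p] : IsClosed ((Hsub p n : Subgroup Gam) : Set Gam) := by
  apply Subgroup.isClosed_of_isOpen
  obtain ⟨ζ, hζ⟩ := HasEnoughRootsOfUnity.exists_primitiveRoot Qbar p
  have hfd : FiniteDimensional ℚ (IntermediateField.adjoin ℚ {ζ}) :=
    IntermediateField.adjoin.finiteDimensional (Algebra.IsIntegral.isIntegral ζ)
  refine Subgroup.isOpen_mono (H₁ := (IntermediateField.adjoin ℚ {ζ}).fixingSubgroup) ?_
    (IntermediateField.fixingSubgroup_isOpen _)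
  intro σ hσ
  have h1 : σ ζ = ζ := by
    have := (IntermediateField.mem_fixingSubgroup_iff _ _).1 hσ ζ
      (IntermediateField.mem_adjoin_simple_self ℚ ζ)
    exact this
  have h2 : (chi p σ : ZMod p) = ((1 : (ZMod p)ˣ) : ZMod p) := by
    refine chi_unique p σ _ fun z hz => ?_
    obtain ⟨i, -, rfl⟩ := hζ.eq_pow_of_pow_eq_one hz
    rw [map_pow, h1]
    by_cases hp : p = 1
    · subst hp
      rw [pow_one] at hz
      rw [hz, one_pow]
    · have : Fact (1 < p) := ⟨by have := NeZero.ne p; omega⟩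
      rw [Units.val_one, ZMod.val_one, pow_one]
  have h3 : chi p σ = 1 := Units.ext h2
  rw [Hsub, Subgroup.mem_comap, h3]
  exact one_mem _

lemma fixing_Lf (p n : ℕ) [NeZero p] : (Lf p n).fixingSubgroup = Hsub p n :=
  InfiniteGalois.fixingSubgroup_fixedField ⟨Hsub p n, Hsub_isClosed p n⟩

lemma galois_Lf' (p n : ℕ) [NeZero p] :
    @IsGalois ℚ _ (Lf p n) _ (IntermediateField.algebra' (Lf p n)) := by
  have h := (InfiniteGalois.normal_iff_isGalois (Lf p n)).1 (by
    rw [fixing_Lf]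
    exact Hsub_normal p n)
  exact h

lemma index_Hsub (p n : ℕ) [Fact p.Prime] : (Hsub p n).index ≤ 2 ^ n ∧ (Hsub p n).index ≠ 0 := by
  unfold Hsub
  rw [Subgroup.index_comap]
  have h1 := Subgroup.relIndex_dvd_index_of_normal
    (powMonoidHom (2 ^ n) : (ZMod p)ˣ →* (ZMod p)ˣ).range (chi p).range
  have h2 : (powMonoidHom (2 ^ n) : (ZMod p)ˣ →* (ZMod p)ˣ).range.index =
      Nat.card (powMonoidHom (2 ^ n) : (ZMod p)ˣ →* (ZMod p)ˣ).ker := Subgroup.index_range
  have h3 : Nat.card (powMonoidHom (2 ^ n) : (ZMod p)ˣ →* (ZMod p)ˣ).ker ≤ 2 ^ n := by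
    have : NeZero (2 ^ n) := ⟨by positivity⟩
    have h4 : (powMonoidHom (2 ^ n) : (ZMod p)ˣ →* (ZMod p)ˣ).ker = rootsOfUnity (2 ^ n) (ZMod p) := by
      ext x
      rw [MonoidHom.mem_ker, mem_rootsOfUnity]
      rfl
    rw [h4]
    exact card_rootsOfUnity (ZMod p) (2 ^ n)
  have h5 : 0 < (powMonoidHom (2 ^ n) : (ZMod p)ˣ →* (ZMod p)ˣ).range.index := by
    rw [h2]
    exact Nat.card_pos
  refine ⟨(Nat.le_of_dvd h5 h1).trans (h2 ▸ h3), ?_⟩
  intro h0
  rw [h0, zero_dvd_iff] at h1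
  omega

lemma finrank_Lf (p n : ℕ) [Fact p.Prime] : finrank ℚ (Lf p n) ≤ 2 ^ n := by
  rw [IntermediateField.finrank_eq_fixingSubgroup_index, fixing_Lf]
  exact (index_Hsub p n).1

instance finite_Lf (p n : ℕ) [Fact p.Prime] : FiniteDimensional ℚ (Lf p n) := by
  apply FiniteDimensional.of_finrank_pos
  rw [IntermediateField.finrank_eq_fixingSubgroup_index, fixing_Lf]
  exact Nat.pos_of_ne_zero (index_Hsub p n).2

end Pool.Agent.R407.USB
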