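import Mathlib
import Pool.Agent.H58W.HtLimit
import Pool.Agent.R407.USB.Base

set_option autoImplicit false

/-!
# The height defined by the Mahler measure is the absolute Weil height
-/

namespace Pool.Agent.R407.USB

open Polynomial NumberField Height Module
open Pool.Agent.Helper259.AbsHt Pool.Agent.Helper259.HtPoly
open Pool.Agent.H58W (hM dens cvec cvec_eq cvec_deg cvec_gcd sInf_mem isInt one_le_mm)

/-- the absolute height is invariant under automorphisms -/
lemma absLogHeight_conj (τ : Qbar ≃ₐ[ℚ] Qbar) (x : Qbar) :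
    absLogHeight ![1, τ x] = absLogHeight ![1, x] := by
  obtain ⟨L, hL, hmem⟩ := exists_nf {x} (Set.finite_singleton x)
  have hx : x ∈ L := hmem x rfl
  have h1 := absLogHeight_eq L ((τ : Qbar →+* Qbar).comp (algebraMap L Qbar)) ![1, ⟨x, hx⟩]
  have h2 := absLogHeight_eq L (algebraMap L Qbar) ![1, ⟨x, hx⟩]
  have e1 : (fun i => ((τ : Qbar →+* Qbar).comp (algebraMap L Qbar)) (![(1 : L), ⟨x, hx⟩] i)) =
      ![1, τ x] := by
    funext i
    fin_cases i
    · simp
    · simp
  have e2 : (fun i => (algebraMap L Qbar) (![(1 : L), ⟨x, hx⟩] i)) = ![1, x] := by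
    funext i
    fin_cases i
    · simp
    · simp
  rw [e1] at h1
  rw [e2] at h2
  rw [h1, h2]

lemma absLogHeight_eq_log {L : Type*} [Field L] [NumberField L] (φ : L →+* Qbar) (y : L) :
    absLogHeight ![1, φ y] = Real.log (mulHeight₁ y) / finrank ℚ L := by
  have h1 := absLogHeight_eq L φ ![1, y]
  have e1 : (fun i => φ (![(1 : L), y] i)) = ![1, φ y] := by
    funext i
    fin_cases i
    · simp
    · simp
  rw [e1] at h1
  rw [h1]
  congr 1
  have h2 : logHeight ![1, y] = logHeight ![y, 1] := by
    apply le_antisymm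
    · have h := logHeight_comp_le ![(1 : Fin 2), 0] ![y, (1 : L)]
      have e : (![y, (1 : L)] ∘ ![(1 : Fin 2), 0]) = ![1, y] := by
        funext i; fin_cases i <;> simp
      rwa [e] at h
    · have h := logHeight_comp_le ![(1 : Fin 2), 0] ![(1 : L), y]
      have e : (![(1 : L), y] ∘ ![(1 : Fin 2), 0]) = ![y, 1] := by
        funext i; fin_cases i <;> simp
      rwa [e] at h
  rw [h2, ← logHeight₁_eq_logHeight, logHeight₁_eq_log_mulHeight₁]

section nonarch

variable {K : Type*} [Field K]

lemma gauss_linear (v : AbsoluteValue K ℝ) (a : K) :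
    (X - C a).gaussNorm v 1 = max (v a) 1 := by
  rw [← iSup_eq_gaussNorm v 1 (X - C a) (by rw [natDegree_X_sub_C])]
  apply le_antisymm
  · refine ciSup_le fun i => ?_
    fin_cases i
    · simp
    · simp
  · apply max_le
    · refine le_trans ?_ (Finite.le_ciSup (fun i : Fin 2 => v ((X - C a).coeff i)) 0)
      simp
    · refine le_trans ?_ (Finite.le_ciSup (fun i : Fin 2 => v ((X - C a).coeff i)) 1)
      simp

lemma gauss_one (v : AbsoluteValue K ℝ) : (1 : K[X]).gaussNorm v 1 = 1 := by
  rw [← iSup_eq_gaussNorm v 0 (1 : K[X]) (by simp)]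
  apply le_antisymm
  · refine ciSup_le fun i => ?_
    fin_cases i
    simp
  · refine le_trans ?_ (Finite.le_ciSup (fun i : Fin 1 => v ((1 : K[X]).coeff i)) 0)
    simp

lemma gauss_prod (v : AbsoluteValue K ℝ) (hv : IsNonarchimedean v) (S : Finset K) :
    (∏ a ∈ S, (X - C a)).gaussNorm v 1 = ∏ a ∈ S, max (v a) 1 := by
  classical
  induction S using Finset.induction_on with
  | empty => simp [gauss_one]
  | insert a S ha ih =>
    rw [Finset.prod_insert ha, Finset.prod_insert ha, gaussNorm_mul hv (by norm_num), ih,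
      gauss_linear]

end nonarch

section main

variable {K : Type*} [Field K] [NumberField K]

lemma finSupp_max (a : K) :
    (fun v : FinitePlace K => max (v a) 1).HasFiniteMulSupport := by
  by_cases ha : a = 0
  · subst ha
    have : (fun v : FinitePlace K => max (v (0 : K)) 1) = fun _ => 1 := by
      funext v
      simp
    rw [this]
    simp [Function.HasFiniteMulSupport]
  · exact (FinitePlace.hasFiniteMulSupport ha).max (by simp [Function.HasFiniteMulSupport])

/-- the product of the heights of the roots of a monic rational polynomial -/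
lemma prod_mulHeight (f : ℚ[X]) (S : Finset K)
    (hf : f.map (algebraMap ℚ K) = ∏ a ∈ S, (X - C a)) :
    ∏ a ∈ S, mulHeight₁ a = (f.map (algebraMap ℚ ℂ)).mahlerMeasure ^ finrank ℚ K *
      ∏ᶠ v : FinitePlace K, (f.map (algebraMap ℚ K)).gaussNorm v.val 1 := by
  have h1 : ∀ a : K, mulHeight₁ a = (∏ v : InfinitePlace K, max (v a) 1 ^ v.mult) *
      ∏ᶠ v : FinitePlace K, max (v a) 1 := NumberField.mulHeight₁_eq
  simp_rw [h1]
  rw [Finset.prod_mul_distrib]
  congr 1
  · rw [Finset.prod_comm]
    have : ∀ v : InfinitePlace K, ∏ a ∈ S, max (v a) 1 ^ v.mult =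
        (f.map (algebraMap ℚ ℂ)).mahlerMeasure ^ v.mult := by
      intro v
      rw [Finset.prod_pow]
      congr 1
      have e : f.map (algebraMap ℚ ℂ) = (Multiset.map (fun a => X - C a)
          (S.val.map v.embedding)).prod := by
        have h2 := congrArg (Polynomial.map v.embedding) hf
        rw [Polynomial.map_map, Polynomial.map_prod] at h2
        have h3 : v.embedding.comp (algebraMap ℚ K) = algebraMap ℚ ℂ := Subsingleton.elim _ _
        rw [h3] at h2
        rw [h2, Finset.prod_eq_multiset_prod, Multiset.map_map]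
        congr 1
        refine Multiset.map_congr rfl fun a _ => ?_
        simp
      rw [e, mahlerMeasure_eq_leadingCoeff_mul_prod_roots, roots_multiset_prod_X_sub_C,
        (monic_multiset_prod_of_monic _ _ (fun a _ => monic_X_sub_C a)).leadingCoeff,
        norm_one, one_mul, Multiset.map_map, Finset.prod_eq_multiset_prod]
      congr 1
      refine Multiset.map_congr rfl fun a _ => ?_
      simp only [Function.comp_apply, InfinitePlace.norm_embedding_eq]
      exact max_comm _ _
    rw [Finset.prod_congr rfl (fun v _ => this v), Finset.prod_pow_eq_pow_sum,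
      InfinitePlace.sum_mult_eq]
  · rw [← finprod_prod_comm S (fun (v : FinitePlace K) (a : K) => max (v a) 1)
      (fun a _ => finSupp_max a)]
    refine finprod_congr fun v => ?_
    rw [hf, gauss_prod v.val (FinitePlace.add_le v) S]
    rfl

/-- the Gauss norm of a monic rational polynomial with primitive integral multiple -/
lemma gauss_primitive (v : FinitePlace K) (f : ℚ[X]) (n : ℕ) (D : ℕ) (hD : f.natDegree ≤ D)
    (c : ℕ → ℤ)
    (hc : ∀ i, (c i : ℚ) = (n : ℚ) * f.coeff i)
    (hg : Finset.univ.gcd (fun i : Fin (D + 1) => c i) = 1) :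
    v (n : K) * (f.map (algebraMap ℚ K)).gaussNorm v.val 1 = 1 := by
  have hna : IsNonarchimedean v.val := FinitePlace.add_le v
  have h1 : v (n : K) = (C (n : K)).gaussNorm v.val 1 := by
    rw [gaussNorm_C]
    rfl
  rw [h1, ← gaussNorm_mul hna (by norm_num), ← iSup_eq_gaussNorm v.val D _ (by
    refine natDegree_mul_le.trans ?_
    rw [natDegree_C, zero_add, natDegree_map]
    exact hD)]
  have h2 : ∀ i, (C (n : K) * f.map (algebraMap ℚ K)).coeff i = ((c i : ℤ) : K) := by
    intro i
    rw [coeff_C_mul, coeff_map]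
    have := congrArg (algebraMap ℚ K) (hc i)
    rw [map_intCast, map_mul, map_natCast] at this
    exact this.symm
  simp only [h2]
  have hle : ∀ z : ℤ, v.val (z : K) ≤ 1 := by
    intro z
    have := FinitePlace.add_le v
    exact IsNonarchimedean.apply_intCast_le_one hna
  apply le_antisymm
  · exact ciSup_le fun i => hle _
  · obtain ⟨u, hu⟩ := Finset.gcd_eq_sum_mul Finset.univ (fun i : Fin (D + 1) => c i)
    rw [hg] at hu
    have h3 : (1 : ℝ) = v.val (∑ i : Fin (D + 1), ((c i : ℤ) : K) * ((u i : ℤ) : K)) := by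
      rw [← map_one v.val]
      congr 1
      exact_mod_cast congrArg (Int.cast : ℤ → K) hu
    have h4 := hna.apply_sum_univ_le (l := fun i : Fin (D + 1) => ((c i : ℤ) : K) * ((u i : ℤ) : K))
    obtain ⟨i, hi⟩ := exists_eq_ciSup_of_finite
      (f := fun i : Fin (D + 1) => v.val (((c i : ℤ) : K) * ((u i : ℤ) : K)))
    rw [← hi, ← h3, map_mul] at h4
    have h5 : 1 ≤ v.val ((c i : ℤ) : K) :=
      h4.trans (mul_le_of_le_one_right (v.val.nonneg _) (hle _))
    exact h5.trans (Finite.le_ciSup (fun i : Fin (D + 1) => v.val ((c i : ℤ) : K)) i)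

/-- product formula for a positive integer -/
lemma finprod_natCast (n : ℕ) (hn : n ≠ 0) :
    (∏ᶠ v : FinitePlace K, (v (n : K))⁻¹) = (n : ℝ) ^ finrank ℚ K := by
  have hn' : (n : K) ≠ 0 := Nat.cast_ne_zero.mpr hn
  have h1 := NumberField.prod_abs_eq_one hn'
  have h2 : ∏ w : InfinitePlace K, w (n : K) ^ w.mult = (n : ℝ) ^ finrank ℚ K := by
    have h3 : ∀ w : InfinitePlace K, w (n : K) = n := by
      intro w
      rw [← InfinitePlace.norm_embedding_eq, map_natCast, Complex.norm_natCast]
    simp only [h3]
    rw [Finset.prod_pow_eq_pow_sum, InfinitePlace.sum_mult_eq]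
  rw [h2] at h1
  rw [finprod_inv_distrib]
  exact (eq_inv_of_mul_eq_one_left h1).symm

end main

/-- The height defined by the Mahler measure is the absolute Weil height. -/
theorem absLogHeight_eq_hM (γ : Qbar) : absLogHeight ![1, γ] = hM γ := by
  classical
  set f := minpoly ℚ γ with hfdef
  have hmon : f.Monic := minpoly.monic (isInt γ)
  obtain ⟨L, hL, hmem⟩ := exists_nf (f.rootSet Qbar) (rootSet_finite f Qbar)
  have hsp : (f.map (algebraMap ℚ L)).Splits :=
    IntermediateField.splits_of_splits (IsAlgClosed.splits _) hmem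
  have hnd : (f.map (algebraMap ℚ L)).roots.Nodup :=
    nodup_roots ((minpoly.irreducible (isInt γ)).separable.map)
  set S := (f.map (algebraMap ℚ L)).roots.toFinset with hS
  have hf : f.map (algebraMap ℚ L) = ∏ a ∈ S, (X - C a) := by
    rw [Finset.prod_eq_multiset_prod, hS, Multiset.toFinset_val, hnd.dedup]
    exact hsp.eq_prod_roots_of_monic (hmon.map _)
  have hcard : S.card = f.natDegree := by
    have := congrArg natDegree hf
    rw [natDegree_map, natDegree_prod_of_monic _ _ (fun a _ => monic_X_sub_C a)] at this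
    simp at this
    exact this.symm
  have hht : ∀ a ∈ S, Real.log (mulHeight₁ a) = finrank ℚ L * absLogHeight ![1, γ] := by
    intro a ha
    have h1 := absLogHeight_eq_log (algebraMap L Qbar) a
    have h2 : f.eval₂ (algebraMap ℚ Qbar) (algebraMap L Qbar a) = 0 := by
      rw [hS, Multiset.mem_toFinset, mem_roots (hmon.map _).ne_zero, IsRoot.def,
        eval_map_algebraMap] at ha
      have := congrArg (algebraMap L Qbar) ha
      rw [← aeval_algebraMap_apply, map_zero] at this
      exact this
    have h3 : IsConjRoot ℚ γ (algebraMap L Qbar a) := by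
      rw [isConjRoot_def]
      exact minpoly.eq_of_irreducible_of_monic (minpoly.irreducible (isInt γ)) h2 hmon
    obtain ⟨τ, hτ⟩ := isConjRoot_iff_exists_algEquiv.mp h3
    have h4 : absLogHeight ![1, (algebraMap L Qbar a)] = absLogHeight ![1, γ] := by
      rw [← absLogHeight_conj τ (algebraMap L Qbar a), hτ]
    rw [h4] at h1
    rw [h1]
    have := finrank_pos' L
    field_simp
  have hn := (sInf_mem γ).1
  set n : ℕ := sInf (dens γ) with hndef
  have h1 := prod_mulHeight f S hf
  have h2 : ∀ v : FinitePlace L, (f.map (algebraMap ℚ L)).gaussNorm v.val 1 =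
      (v (n : L))⁻¹ := fun v => eq_inv_of_mul_eq_one_right
    (gauss_primitive v f n f.natDegree le_rfl (cvec γ) (cvec_eq γ) (cvec_gcd γ _ le_rfl))
  rw [finprod_congr h2, finprod_natCast n hn.ne'] at h1
  have hM1 := one_le_mm γ
  rw [← hfdef] at hM1
  have h3 := congrArg Real.log h1
  rw [Real.log_prod (fun a _ => (mulHeight₁_pos a).ne'), Finset.sum_congr rfl hht, Finset.sum_const,
    hcard, Real.log_mul (by positivity) (by positivity), Real.log_pow, Real.log_pow,
    nsmul_eq_mul] at h3
  have hpos := finrank_pos' L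
  have hd : (0 : ℝ) < f.natDegree := by exact_mod_cast minpoly.natDegree_pos (isInt γ)
  have hn' : (0 : ℝ) < n := by exact_mod_cast hn
  unfold hM
  rw [← hfdef, ← hndef, Real.log_mul hn'.ne' (by positivity)]
  rw [eq_div_iff hd.ne']
  have h4 : (finrank ℚ L : ℝ) * (absLogHeight ![1, γ] * f.natDegree) = finrank ℚ L *
    (Real.log n + Real.log (Polynomial.map (algebraMap ℚ ℂ) f).mahlerMeasure) := by
    linarith
  exact mul_left_cancel₀ hpos.ne' h4

end Pool.Agent.R407.USB
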