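import Mathlib
import Pool.Agent.R407.USB.HtEq

set_option autoImplicit false

/-!
# A lower bound for the height from an automorphism acting trivially modulo a prime
-/

namespace Pool.Agent.R407.USB

open NumberField Height Module IsDedekindDomain
open Pool.Agent.Helper259.AbsHt

variable {K : Type*} [Field K] [NumberField K]

lemma fp_le_one (P : HeightOneSpectrum (𝓞 K)) (x : 𝓞 K) : FinitePlace.mk P (x : K) ≤ 1 :=
  FinitePlace.norm_le_one K P x

lemma fp_eq_one (P : HeightOneSpectrum (𝓞 K)) (x : 𝓞 K) (hx : x ∉ P.asIdeal) :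
    FinitePlace.mk P (x : K) = 1 :=
  (FinitePlace.norm_eq_one_iff_notMem K P x).2 hx

lemma fp_mem (P : HeightOneSpectrum (𝓞 K)) (x : 𝓞 K) (hx : x ∈ P.asIdeal) :
    FinitePlace.mk P (x : K) ≤ (Ideal.absNorm P.asIdeal : ℝ)⁻¹ := by
  have hN : (1 : ℝ) < Ideal.absNorm P.asIdeal := by
    exact_mod_cast HeightOneSpectrum.one_lt_absNorm P
  by_cases h0 : x = 0
  · subst h0
    have h00 : ((0 : 𝓞 K) : K) = 0 := by simp
    have : FinitePlace.mk P ((0 : 𝓞 K) : K) = 0 := by
      rw [h00, map_zero]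
    rw [this]
    positivity
  have h1 := HeightOneSpectrum.embedding_mul_absNorm (K := K) (v := P) h0
  have h2 : ‖FinitePlace.embedding (K := K) P (algebraMap (𝓞 K) K x)‖ =
      FinitePlace.mk P (x : K) := rfl
  rw [h2, HeightOneSpectrum.maxPowDividing, map_pow, Nat.cast_pow] at h1
  set n := (Associates.mk P.asIdeal).count (Associates.mk (Ideal.span {x})).factors with hn
  have hn1 : 1 ≤ n := by
    rw [hn, Nat.one_le_iff_ne_zero]
    have h3 : P.asIdeal ∣ Ideal.span {x} := by
      rw [Ideal.dvd_span_singleton]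
      exact hx
    intro h4
    have h5 : Ideal.span {x} ≠ 0 := by
      rw [Ideal.zero_eq_bot, Ne, Ideal.span_singleton_eq_bot]
      exact h0
    have h6 := (Associates.count_ne_zero_iff_dvd h5 P.irreducible).2 h3
    exact h6 h4
  have h7 : FinitePlace.mk P (x : K) = ((Ideal.absNorm P.asIdeal : ℝ) ^ n)⁻¹ :=
    eq_inv_of_mul_eq_one_left h1
  rw [h7]
  apply inv_anti₀ (by positivity)
  calc (Ideal.absNorm P.asIdeal : ℝ) = (Ideal.absNorm P.asIdeal : ℝ) ^ 1 := (pow_one _).symm
    _ ≤ _ := pow_le_pow_right₀ hN.le hn1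

lemma cong_at (P : HeightOneSpectrum (𝓞 K)) (β β' : K) (a b a' b' : 𝓞 K)
    (hβ : β * b = a) (hβ' : β' * b' = a') (hb : b ≠ 0) (hb' : b' ≠ 0)
    (hprim : a ∉ P.asIdeal ∨ b ∉ P.asIdeal) (ha1 : a' - a ∈ P.asIdeal)
    (hb1 : b' - b ∈ P.asIdeal) :
    FinitePlace.mk P (β' - β) ≤ (Ideal.absNorm P.asIdeal : ℝ)⁻¹ *
      (max (FinitePlace.mk P β) 1 * max (FinitePlace.mk P β') 1) := by
  set w := FinitePlace.mk P with hw
  have hbK : (b : K) ≠ 0 := by exact_mod_cast hb
  have hbK' : (b' : K) ≠ 0 := by exact_mod_cast hb'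
  have hwb : 0 < w (b : K) := FinitePlace.pos_iff.2 hbK
  have hwb' : 0 < w (b' : K) := FinitePlace.pos_iff.2 hbK'
  have hprim' : a' ∉ P.asIdeal ∨ b' ∉ P.asIdeal := by
    rcases hprim with h | h
    · left
      intro h2
      apply h
      have := P.asIdeal.sub_mem h2 ha1
      simpa using this
    · right
      intro h2
      apply h
      have := P.asIdeal.sub_mem h2 hb1
      simpa using this
  have key : ∀ (β : K) (a b : 𝓞 K), β * b = a → b ≠ 0 → (a ∉ P.asIdeal ∨ b ∉ P.asIdeal) →
      max (w β) 1 * w (b : K) = 1 := by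
    intro β a b hβ hb hp
    rw [max_mul_of_nonneg _ _ (apply_nonneg w _), ← map_mul, hβ, one_mul]
    have h1 := fp_le_one P a
    have h2 := fp_le_one P b
    rcases hp with h | h
    · have h3 := fp_eq_one P a h
      rw [← hw] at h1 h2 h3
      rw [h3]
      exact max_eq_left h2
    · have h3 := fp_eq_one P b h
      rw [← hw] at h1 h2 h3
      rw [h3]
      exact max_eq_right h1
  have k1 := key β a b hβ hb hprim
  have k2 := key β' a' b' hβ' hb' hprim'
  have h3 : w (β' - β) * (w (b : K) * w (b' : K)) ≤ (Ideal.absNorm P.asIdeal : ℝ)⁻¹ := by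
    rw [← map_mul, ← map_mul]
    have e : (β' - β) * ((b : K) * (b' : K)) = ((a' * b - a * b' : 𝓞 K) : K) := by
      have e1 : ((a' * b - a * b' : 𝓞 K) : K) = (a' : K) * (b : K) - (a : K) * (b' : K) := by
        simp only [map_sub, map_mul]
      rw [e1, ← hβ, ← hβ']
      ring
    rw [e]
    apply fp_mem
    have : a' * b - a * b' = (a' - a) * b - a * (b' - b) := by ring
    rw [this]
    exact P.asIdeal.sub_mem (P.asIdeal.mul_mem_right _ ha1) (P.asIdeal.mul_mem_left _ hb1)
  have hm1 : 0 < max (w β) 1 := lt_of_lt_of_le one_pos (le_max_right _ _)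
  have hm2 : 0 < max (w β') 1 := lt_of_lt_of_le one_pos (le_max_right _ _)
  calc w (β' - β) = w (β' - β) * (w (b : K) * w (b' : K)) *
        (max (w β) 1 * max (w β') 1) := by
        have : w (β' - β) * (w (b : K) * w (b' : K)) * (max (w β) 1 * max (w β') 1) =
          w (β' - β) * (max (w β) 1 * w (b : K)) * (max (w β') 1 * w (b' : K)) := by ring
        rw [this, k1, k2, mul_one, mul_one]
    _ ≤ _ := mul_le_mul_of_nonneg_right h3 (by positivity)

/-- main inequality -/
theorem log_norm_le (P : HeightOneSpectrum (𝓞 K)) (τ : K ≃ₐ[ℚ] K)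
    (hτ : ∀ x : 𝓞 K, ∃ y : 𝓞 K, (y : K) = τ x ∧ y - x ∈ P.asIdeal) (β : K) (hβ : τ β ≠ β) :
    Real.log (Ideal.absNorm P.asIdeal) ≤ finrank ℚ K * Real.log 2 +
      (Real.log (mulHeight₁ β) + Real.log (mulHeight₁ (τ β))) := by
  classical
  have hN : (1 : ℝ) < Ideal.absNorm P.asIdeal := by
    exact_mod_cast HeightOneSpectrum.one_lt_absNorm P
  set w := FinitePlace.mk P with hw
  have hne : τ β - β ≠ 0 := sub_ne_zero.2 hβ
  -- at the prime `P`
  have hP : w (τ β - β) ≤ (Ideal.absNorm P.asIdeal : ℝ)⁻¹ *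
      (max (w β) 1 * max (w (τ β)) 1) := by
    obtain ⟨n, ⟨d, hd⟩, h⟩ := HeightOneSpectrum.exists_primeCompl_mul_eq_or_mul_eq P β
    obtain ⟨n', hn', hn1⟩ := hτ n
    obtain ⟨d', hd', hd1⟩ := hτ d
    have hd0 : d ≠ 0 := fun h0 => hd (by rw [h0]; exact P.asIdeal.zero_mem)
    have hd0' : d' ≠ 0 := by
      intro h0
      rw [h0] at hd'
      have h1 : τ (d : K) = 0 := by rw [← hd']; simp
      have h2 := (map_eq_zero τ).1 h1
      exact hd0 (RingOfIntegers.coe_eq_zero_iff.1 h2)
    rcases h with h | h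
    · refine cong_at P β (τ β) n d n' d' h ?_ hd0 hd0' (Or.inr hd) hn1 hd1
      rw [hd', hn', ← map_mul]
      exact congrArg τ h
    · have hn0 : n ≠ 0 := by
        intro h0
        rw [h0, map_zero, mul_zero] at h
        exact hd0 (RingOfIntegers.coe_eq_zero_iff.1 h.symm)
      have hn0' : n' ≠ 0 := by
        intro h0
        rw [h0] at hn'
        have h1 : τ (n : K) = 0 := by rw [← hn']; simp
        have h2 := (map_eq_zero τ).1 h1
        exact hn0 (RingOfIntegers.coe_eq_zero_iff.1 h2)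
      refine cong_at P β (τ β) d n d' n' h ?_ hn0 hn0' (Or.inl hd) hd1 hn1
      rw [hd', hn', ← map_mul]
      exact congrArg τ h
  -- at all finite places
  set c : FinitePlace K → ℝ := fun v => if v = w then (Ideal.absNorm P.asIdeal : ℝ)⁻¹ else 1
    with hc
  have hcsupp : c.HasFiniteMulSupport := by
    refine (Set.finite_singleton w).subset ?_
    intro v hv
    by_contra h
    rw [Set.mem_singleton_iff] at h
    apply hv
    simp [hc, h]
  have hcprod : ∏ᶠ v, c v = (Ideal.absNorm P.asIdeal : ℝ)⁻¹ := by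
    rw [finprod_eq_single c w (fun v hv => by simp [hc, hv])]
    simp [hc]
  have hfin : ∏ᶠ v : FinitePlace K, v (τ β - β) ≤ (Ideal.absNorm P.asIdeal : ℝ)⁻¹ *
      ((∏ᶠ v : FinitePlace K, max (v β) 1) * ∏ᶠ v : FinitePlace K, max (v (τ β)) 1) := by
    have hs : (fun v : FinitePlace K => max (v β) 1 * max (v (τ β)) 1).HasFiniteMulSupport :=
      (finSupp_max β).mul (finSupp_max (τ β))
    rw [← hcprod, ← finprod_mul_distrib (finSupp_max β) (finSupp_max (τ β)),
      ← finprod_mul_distrib hcsupp hs]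
    refine finprod_le_finprod (FinitePlace.hasFiniteMulSupport hne) (fun v => apply_nonneg v _)
      (hcsupp.mul hs) ?_
    intro v
    by_cases hv : v = w
    · subst hv
      simp only [hc, if_true]
      exact hP
    · simp only [hc, if_neg hv, one_mul]
      have h1 : v (τ β - β) ≤ max (v (τ β)) (v β) := by
        have := FinitePlace.add_le v (τ β) (-β)
        rw [map_neg_eq_map] at this
        rw [sub_eq_add_neg]
        exact this
      refine h1.trans (max_le ?_ ?_)
      · calc v (τ β) ≤ max (v (τ β)) 1 := le_max_left _ _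
          _ = 1 * max (v (τ β)) 1 := (one_mul _).symm
          _ ≤ _ := mul_le_mul_of_nonneg_right (le_max_right _ _)
            (zero_le_one.trans (le_max_right _ _))
      · calc v β ≤ max (v β) 1 := le_max_left _ _
          _ = max (v β) 1 * 1 := (mul_one _).symm
          _ ≤ _ := mul_le_mul_of_nonneg_left (le_max_right _ _)
            (zero_le_one.trans (le_max_right _ _))
  -- at the infinite places
  have hinf : ∏ v : InfinitePlace K, v (τ β - β) ^ v.mult ≤ 2 ^ finrank ℚ K *
      ((∏ v : InfinitePlace K, max (v β) 1 ^ v.mult) *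
        ∏ v : InfinitePlace K, max (v (τ β)) 1 ^ v.mult) := by
    rw [← InfinitePlace.sum_mult_eq, ← Finset.prod_pow_eq_pow_sum, ← Finset.prod_mul_distrib,
      ← Finset.prod_mul_distrib]
    refine Finset.prod_le_prod (fun v _ => pow_nonneg (apply_nonneg v _) _) fun v _ => ?_
    rw [← mul_pow, ← mul_pow]
    refine pow_le_pow_left₀ (apply_nonneg v _) ?_ _
    have h1 : v (τ β - β) ≤ v (τ β) + v β := by
      rw [← InfinitePlace.norm_embedding_eq, ← InfinitePlace.norm_embedding_eq,
        ← InfinitePlace.norm_embedding_eq, map_sub]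
      exact norm_sub_le _ _
    have h2 := le_max_left (v β) 1
    have h3 := le_max_right (v β) 1
    have h4 := le_max_left (v (τ β)) 1
    have h5 := le_max_right (v (τ β)) 1
    nlinarith
  -- the product formula
  have hprod := NumberField.prod_abs_eq_one hne
  have hpos1 : 0 ≤ ∏ v : InfinitePlace K, v (τ β - β) ^ v.mult :=
    Finset.prod_nonneg fun v _ => pow_nonneg (apply_nonneg v _) _
  have hfinpos : 0 ≤ ∏ᶠ v : FinitePlace K, v (τ β - β) :=
    finprod_nonneg fun v => apply_nonneg v _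
  have hall : (1 : ℝ) ≤ 2 ^ finrank ℚ K * (Ideal.absNorm P.asIdeal : ℝ)⁻¹ *
      (mulHeight₁ β * mulHeight₁ (τ β)) := by
    rw [NumberField.mulHeight₁_eq, NumberField.mulHeight₁_eq]
    calc (1 : ℝ) = _ := hprod.symm
      _ ≤ (2 ^ finrank ℚ K *
      ((∏ v : InfinitePlace K, max (v β) 1 ^ v.mult) *
        ∏ v : InfinitePlace K, max (v (τ β)) 1 ^ v.mult)) * ((Ideal.absNorm P.asIdeal : ℝ)⁻¹ *
      ((∏ᶠ v : FinitePlace K, max (v β) 1) * ∏ᶠ v : FinitePlace K, max (v (τ β)) 1)) :=
          mul_le_mul hinf hfin hfinpos (hpos1.trans hinf)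
      _ = _ := by ring
  have h1 := mulHeight₁_pos β
  have h2 := mulHeight₁_pos (τ β)
  have h3 : (Ideal.absNorm P.asIdeal : ℝ) ≤ 2 ^ finrank ℚ K * (mulHeight₁ β * mulHeight₁ (τ β)) := by
    have hN0 : (0 : ℝ) < Ideal.absNorm P.asIdeal := by linarith
    have h4 := mul_le_mul_of_nonneg_left hall hN0.le
    rw [mul_one] at h4
    calc (Ideal.absNorm P.asIdeal : ℝ) ≤ _ := h4
      _ = _ := by field_simp
  have h5 := Real.log_le_log (by linarith) h3
  rw [Real.log_mul (by positivity) (by positivity), Real.log_pow,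
    Real.log_mul h1.ne' h2.ne'] at h5
  exact h5

/-- the height is bounded below by the logarithm of the norm of the prime -/
theorem height_ge (P : HeightOneSpectrum (𝓞 K)) (τ : K ≃ₐ[ℚ] K)
    (hτ : ∀ x : 𝓞 K, ∃ y : 𝓞 K, (y : K) = τ x ∧ y - x ∈ P.asIdeal) (φ : K →+* Qbar) (β : K)
    (hβ : τ β ≠ β) :
    Real.log (Ideal.absNorm P.asIdeal) ≤
      finrank ℚ K * (Real.log 2 + 2 * absLogHeight ![1, φ β]) := by
  have h1 := log_norm_le P τ hτ β hβ
  have h2 := absLogHeight_eq_log φ β
  have h3 := absLogHeight_eq_log (φ.comp (τ : K →+* K)) β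
  have h4 := absLogHeight_eq_log φ (τ β)
  have e : (φ.comp (τ : K →+* K)) β = φ (τ β) := rfl
  rw [e, h4] at h3
  have hpos : (0 : ℝ) < finrank ℚ K := by
    have := Module.finrank_pos (R := ℚ) (M := K)
    exact_mod_cast this
  have h5 : Real.log (mulHeight₁ (τ β)) = Real.log (mulHeight₁ β) := by
    field_simp at h3
    exact h3
  rw [h5] at h1
  have h6 : Real.log (mulHeight₁ β) = finrank ℚ K * absLogHeight ![1, φ β] := by
    rw [h2]
    field_simp
  rw [h6] at h1
  linarith

end Pool.Agent.R407.USB
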