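import Mathlib
import Pool.Agent.R407.USB.Chi
import Pool.Agent.R407.USB.Cong

set_option autoImplicit false

/-!
# Automorphisms acting trivially modulo a prime
-/

namespace Pool.Agent.R407.USB

open NumberField Module IsDedekindDomain Polynomial
open Pool.Agent.Helper259.AbsHt

/-- the cyclotomic field -/
noncomputable def Cy (m : ℕ) [NeZero m] : IntermediateField ℚ Qbar :=
  IntermediateField.adjoin ℚ {(HasEnoughRootsOfUnity.exists_primitiveRoot Qbar m).choose}

/-- a primitive root of unity -/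
noncomputable def zt (m : ℕ) [NeZero m] : Qbar :=
  (HasEnoughRootsOfUnity.exists_primitiveRoot Qbar m).choose

lemma zt_spec (m : ℕ) [NeZero m] : IsPrimitiveRoot (zt m) m :=
  (HasEnoughRootsOfUnity.exists_primitiveRoot Qbar m).choose_spec

lemma zt_mem (m : ℕ) [NeZero m] : zt m ∈ Cy m := IntermediateField.mem_adjoin_simple_self ℚ _

instance Cy_fin (m : ℕ) [NeZero m] : FiniteDimensional ℚ (Cy m) :=
  IntermediateField.adjoin.finiteDimensional (Algebra.IsIntegral.isIntegral _)

instance Cy_nf (m : ℕ) [NeZero m] : NumberField (Cy m) where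
  to_charZero := inferInstance
  to_finiteDimensional := Cy_fin m

/-- the primitive root in the cyclotomic field -/
noncomputable def ztc (m : ℕ) [NeZero m] : Cy m := ⟨zt m, zt_mem m⟩

lemma ztc_spec (m : ℕ) [NeZero m] : IsPrimitiveRoot (ztc m) m := by
  have h := zt_spec m
  have e : zt m = algebraMap (Cy m) Qbar (ztc m) := rfl
  rw [e] at h
  exact IsPrimitiveRoot.of_map_of_injective h (algebraMap (Cy m) Qbar).injective

instance Cy_cyc (m : ℕ) [NeZero m] : IsCyclotomicExtension {m} ℚ (Cy m) := by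
  have h := (zt_spec m).intermediateField_adjoin_isCyclotomicExtension (K := ℚ)
  have e : (IntermediateField.algebra' (Cy m) : Algebra ℚ (Cy m)) = DivisionRing.toRatAlgebra :=
    Subsingleton.elim _ _
  rw [← e]
  exact h

/-- an automorphism fixing the roots of unity of order prime to `p` acts trivially modulo `p` on
the integers of the cyclotomic field -/
lemma trivial_mod (M p : ℕ) [NeZero M] [Fact p.Prime] [NeZero (M * p)] (τ : Gam)
    (hτ : ∀ z : Qbar, z ^ M = 1 → τ z = z) (Q : Ideal (𝓞 Qbar)) [Q.IsPrime]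
    (hQ : (p : 𝓞 Qbar) ∈ Q) (x : 𝓞 (Cy (M * p))) :
    RingOfIntegers.mapRingHom ((τ : Qbar →+* Qbar).comp (algebraMap (Cy (M * p)) Qbar)) x -
      RingOfIntegers.mapRingHom (algebraMap (Cy (M * p)) Qbar) x ∈ Q := by
  set f1 : 𝓞 (Cy (M * p)) →+* (𝓞 Qbar ⧸ Q) := (Ideal.Quotient.mk Q).comp
    (RingOfIntegers.mapRingHom ((τ : Qbar →+* Qbar).comp (algebraMap (Cy (M * p)) Qbar))) with hf1
  set f2 : 𝓞 (Cy (M * p)) →+* (𝓞 Qbar ⧸ Q) := (Ideal.Quotient.mk Q).comp
    (RingOfIntegers.mapRingHom (algebraMap (Cy (M * p)) Qbar)) with hf2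
  have hpr : p.Prime := Fact.out
  have hchar : CharP (𝓞 Qbar ⧸ Q) p := by
    have h0 : (p : 𝓞 Qbar ⧸ Q) = 0 := by
      rw [← map_natCast (Ideal.Quotient.mk Q), Ideal.Quotient.eq_zero_iff_mem]
      exact hQ
    have h1 : ringChar (𝓞 Qbar ⧸ Q) ∣ p := ringChar.dvd h0
    rcases (Nat.dvd_prime hpr).1 h1 with h | h
    · exfalso
      have := ringChar.of_eq h
      exact CharP.false_of_nontrivial_of_char_one (R := 𝓞 Qbar ⧸ Q)
    · exact ringChar.of_eq h
  have hgen := IsCyclotomicExtension.Rat.adjoin_singleton_eq_top (ztc_spec (M * p))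
  have hz : f1 (ztc_spec (M * p)).toInteger = f2 (ztc_spec (M * p)).toInteger := by
    have h1 : ∀ a b : (𝓞 Qbar ⧸ Q), a ^ p = b ^ p → a = b := by
      intro a b hab
      have h2 : (a - b) ^ p = 0 := by
        rw [sub_pow_char, hab, sub_self]
      exact sub_eq_zero.1 (pow_eq_zero_iff hpr.ne_zero |>.1 h2)
    apply h1
    rw [← map_pow, ← map_pow, hf1, hf2, RingHom.comp_apply, RingHom.comp_apply]
    congr 1
    apply RingOfIntegers.ext
    rw [RingOfIntegers.mapRingHom_apply, RingOfIntegers.mapRingHom_apply]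
    show τ _ = _
    apply hτ
    have h3 : ((ztc_spec (M * p)).toInteger ^ p) ^ M = 1 := by
      rw [← pow_mul, mul_comm p M]
      exact (ztc_spec (M * p)).toInteger_isPrimitiveRoot.pow_eq_one
    have h4 := congrArg (RingOfIntegers.mapRingHom (algebraMap (Cy (M * p)) Qbar)) h3
    rw [map_pow, map_one] at h4
    have h5 := congrArg (fun y : 𝓞 Qbar => (y : Qbar)) h4
    simpa using h5
  have hall : f1 = f2 := by
    have h1 : f1.toIntAlgHom = f2.toIntAlgHom := by
      apply AlgHom.ext_of_adjoin_eq_top hgen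
      intro y hy
      rw [Set.mem_singleton_iff] at hy
      subst hy
      exact hz
    ext y
    exact DFunLike.congr_fun h1 y
  have h2 := DFunLike.congr_fun hall x
  rw [hf1, hf2, RingHom.comp_apply, RingHom.comp_apply] at h2
  exact (Ideal.Quotient.eq).1 h2

end Pool.Agent.R407.USB
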