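import Mathlib
import Pool.Agent.R407.USB.Inert

set_option autoImplicit false

/-!
# The tower of fields and the lower bound for the height of the new elements
-/

namespace Pool.Agent.R407.USB

open NumberField Module IsDedekindDomain Polynomial
open Pool.Agent.Helper259.AbsHt

lemma mem_of_fix (E : IntermediateField ℚ Qbar) (x : Qbar)
    (h : ∀ ρ ∈ E.fixingSubgroup, ρ x = x) : x ∈ E := by
  have h1 := InfiniteGalois.fixedField_fixingSubgroup E
  rw [← h1, IntermediateField.mem_fixedField_iff]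
  exact h

lemma Lf_le_Cy (p n m : ℕ) [NeZero p] [NeZero m] (h : p ∣ m) : Lf p n ≤ Cy m := by
  intro x hx
  apply mem_of_fix
  intro ρ hρ
  apply fix_of_trivial p n ρ _ x hx
  intro z hz
  have h1 : ρ (zt m) = zt m := (IntermediateField.mem_fixingSubgroup_iff _ _).1 hρ _ (zt_mem m)
  have h2 : z ^ m = 1 := by
    obtain ⟨c, rfl⟩ := h
    rw [pow_mul, hz, one_pow]
  obtain ⟨i, -, rfl⟩ := (zt_spec m).eq_pow_of_pow_eq_one h2
  rw [map_pow, h1]

lemma fix_Cy (m : ℕ) [NeZero m] (ρ : Gam) (hρ : ∀ z : Qbar, z ^ m = 1 → ρ z = z) (x : Qbar)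
    (hx : x ∈ Cy m) : ρ x = x := by
  have h1 : Cy m ≤ IntermediateField.fixedField (Subgroup.zpowers ρ) := by
    show IntermediateField.adjoin ℚ {zt m} ≤ _
    rw [IntermediateField.adjoin_le_iff, Set.singleton_subset_iff, SetLike.mem_coe,
      IntermediateField.mem_fixedField_iff]
    rintro f ⟨k, rfl⟩
    have h3 : ρ ∈ MulAction.stabilizer Gam (zt m) := hρ _ (zt_spec m).pow_eq_one
    exact (MulAction.stabilizer Gam (zt m)).zpow_mem h3 k
  have h2 := h1 hx
  rw [IntermediateField.mem_fixedField_iff] at h2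
  exact h2 _ (Subgroup.mem_zpowers _)

section tower

variable (p : ℕ → ℕ) [hp : ∀ i, Fact (p i).Prime]

/-- the tower -/
noncomputable def Kt : ℕ → IntermediateField ℚ Qbar
  | 0 => ⊥
  | (j + 1) => Kt j ⊔ Lf (p j) j

/-- the product of the primes -/
def mm (j : ℕ) : ℕ := ∏ i ∈ Finset.range j, p i

instance mm_ne (j : ℕ) : NeZero (mm p j) :=
  ⟨Finset.prod_ne_zero_iff.2 fun i _ => (hp i).out.ne_zero⟩

omit hp in
lemma mm_succ (j : ℕ) : mm p (j + 1) = mm p j * p j := Finset.prod_range_succ _ _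

lemma Kt_le_Cy (j m : ℕ) [NeZero m] (h : mm p j ∣ m) : Kt p j ≤ Cy m := by
  induction j with
  | zero => exact bot_le
  | succ j ih =>
    rw [mm_succ] at h
    exact sup_le (ih ((dvd_mul_right _ _).trans h))
      (Lf_le_Cy (p j) j m ((dvd_mul_left _ _).trans h))

instance Kt_fin (j : ℕ) : FiniteDimensional ℚ (Kt p j) := by
  induction j with
  | zero => exact (inferInstance : FiniteDimensional ℚ (⊥ : IntermediateField ℚ Qbar))
  | succ j ih =>
    have := ih
    exact IntermediateField.finiteDimensional_sup (Kt p j) (Lf (p j) j)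

lemma finrank_Kt (j : ℕ) : finrank ℚ (Kt p j) ≤ 2 ^ (j * j) := by
  induction j with
  | zero =>
    show finrank ℚ (⊥ : IntermediateField ℚ Qbar) ≤ _
    rw [IntermediateField.finrank_bot]
    simp
  | succ j ih =>
    have h1 : finrank ℚ (Kt p (j + 1)) ≤ finrank ℚ (Kt p j) * finrank ℚ (Lf (p j) j) :=
      IntermediateField.finrank_sup_le _ _
    calc _ ≤ _ := h1
      _ ≤ 2 ^ (j * j) * 2 ^ j := Nat.mul_le_mul ih (finrank_Lf (p j) j)
      _ = 2 ^ (j * j + j) := by rw [pow_add]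
      _ ≤ _ := Nat.pow_le_pow_right (by norm_num) (by ring_nf; omega)

instance Kt_nf (j : ℕ) : NumberField (Kt p j) where
  to_charZero := inferInstance
  to_finiteDimensional := Kt_fin p j

lemma Kt_normal (j : ℕ) : @Normal ℚ (Kt p j) _ _ (IntermediateField.algebra' (Kt p j)) := by
  induction j with
  | zero => exact IntermediateField.normal_iff_forall_map_le.2 (fun σ => by
      show IntermediateField.map σ ⊥ ≤ ⊥
      rw [IntermediateField.map_bot])
  | succ j ih =>
    have h1 := ih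
    have h2 := (galois_Lf' (p j) j).to_normal
    exact IntermediateField.normal_sup ℚ Qbar (Kt p j) (Lf (p j) j)

/-- a maximal ideal above a prime number -/
lemma exists_max (q : ℕ) [Fact q.Prime] :
    ∃ Q : Ideal (𝓞 Qbar), Q.IsMaximal ∧ (q : 𝓞 Qbar) ∈ Q ∧
      ∀ n : ℕ, (n : 𝓞 Qbar) ∈ Q → q ∣ n := by
  have hq : q.Prime := Fact.out
  have hqi : Prime (q : ℤ) := Nat.prime_iff_prime_int.1 hq
  have hmax : (Ideal.span {(q : ℤ)}).IsMaximal :=
    PrincipalIdealRing.isMaximal_of_irreducible hqi.irreducible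
  obtain ⟨Q, hQ, hQc⟩ := Ideal.exists_ideal_over_maximal_of_isIntegral (S := 𝓞 Qbar)
    (Ideal.span {(q : ℤ)}) (by
      rw [(RingHom.injective_iff_ker_eq_bot _).1 (FaithfulSMul.algebraMap_injective ℤ (𝓞 Qbar))]
      exact bot_le)
  refine ⟨Q, hQ, ?_, fun n hn => ?_⟩
  · have h1 : (q : ℤ) ∈ Q.comap (algebraMap ℤ (𝓞 Qbar)) := by
      rw [hQc]
      exact Ideal.mem_span_singleton_self _
    rw [Ideal.mem_comap, map_natCast] at h1
    exact h1
  · have h1 : (n : ℤ) ∈ Q.comap (algebraMap ℤ (𝓞 Qbar)) := by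
      rw [Ideal.mem_comap, map_natCast]
      exact hn
    rw [hQc, Ideal.mem_span_singleton] at h1
    exact_mod_cast h1

theorem step (j : ℕ) (hcop : (mm p j).Coprime (p j)) (α : Qbar) (hα : α ∈ Kt p (j + 1))
    (hα' : α ∉ Kt p j) :
    Real.log (p j) ≤ finrank ℚ (Kt p (j + 1)) * (Real.log 2 + 2 * absLogHeight ![1, α]) := by
  -- an automorphism moving `α`
  obtain ⟨σ, hσ, hσα⟩ : ∃ σ ∈ (Kt p j).fixingSubgroup, σ α ≠ α := by
    by_contra hcon
    push Not at hcon
    exact hα' (mem_of_fix _ _ hcon)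
  obtain ⟨τ, hτ1, hτ2⟩ := exists_tau (mm p j) (p j) hcop σ
  have hagree : ∀ x ∈ Kt p (j + 1), τ x = σ x := by
    have h1 : Kt p (j + 1) ≤ IntermediateField.fixedField (Subgroup.zpowers (σ⁻¹ * τ)) := by
      refine sup_le ?_ ?_
      · intro x hx
        have h2 : σ x = x := (IntermediateField.mem_fixingSubgroup_iff _ _).1 hσ x hx
        have h3 : τ x = x := fix_Cy (mm p j) τ hτ1 x (Kt_le_Cy p j (mm p j) dvd_rfl hx)
        rw [IntermediateField.mem_fixedField_iff]
        rintro f ⟨k, rfl⟩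
        have h4 : σ⁻¹ * τ ∈ MulAction.stabilizer Gam x := by
          show σ.symm (τ x) = x
          rw [h3, AlgEquiv.symm_apply_eq]
          exact h2.symm
        exact (MulAction.stabilizer Gam x).zpow_mem h4 k
      · intro x hx
        have h3 : τ x = σ x := agree (p j) j σ τ hτ2 x hx
        rw [IntermediateField.mem_fixedField_iff]
        rintro f ⟨k, rfl⟩
        have h4 : σ⁻¹ * τ ∈ MulAction.stabilizer Gam x := by
          show σ.symm (τ x) = x
          rw [h3, AlgEquiv.symm_apply_apply]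
        exact (MulAction.stabilizer Gam x).zpow_mem h4 k
    intro x hx
    have h2 := h1 hx
    rw [IntermediateField.mem_fixedField_iff] at h2
    have h3 : σ.symm (τ x) = x := h2 _ (Subgroup.mem_zpowers _)
    have h4 := congrArg σ h3
    rwa [AlgEquiv.apply_symm_apply] at h4
  -- the number field
  set K := Kt p (j + 1) with hK
  have hmem : ∀ (ρ : Gam) (x : Qbar), x ∈ K → ρ x ∈ K := by
    intro ρ x hx
    have h1 := (IntermediateField.normal_iff_forall_map_le' (K := K)).1 (Kt_normal p (j + 1)) ρ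
    exact h1 ⟨x, hx, rfl⟩
  let e : K ≃+* K :=
    { toFun := fun x => ⟨τ x, hmem τ x x.2⟩
      invFun := fun x => ⟨τ.symm x, hmem τ.symm x x.2⟩
      left_inv := fun x => Subtype.ext (τ.symm_apply_apply x)
      right_inv := fun x => Subtype.ext (τ.apply_symm_apply x)
      map_mul' := fun x y => Subtype.ext (map_mul τ _ _)
      map_add' := fun x y => Subtype.ext (map_add τ _ _) }
  let τ' : K ≃ₐ[ℚ] K := AlgEquiv.ofRingEquiv (f := e) (fun x => by simp)
  have hτ' : ∀ x : K, ((τ' x : K) : Qbar) = τ x := fun x => rfl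
  -- the prime
  obtain ⟨Q, hQ, hpQ, hQn⟩ := exists_max (p j)
  have hQp : Q.IsPrime := hQ.isPrime
  set f : 𝓞 K →+* 𝓞 Qbar := RingOfIntegers.mapRingHom (algebraMap K Qbar) with hf
  have hpP : ((p j : ℕ) : 𝓞 K) ∈ Q.comap f := by
    rw [Ideal.mem_comap, map_natCast]
    exact hpQ
  let P : HeightOneSpectrum (𝓞 K) := ⟨Q.comap f, Ideal.comap_isPrime f Q, by
    intro h0
    rw [h0, Ideal.mem_bot, Nat.cast_eq_zero] at hpP
    exact (hp j).out.ne_zero hpP⟩
  have hnorm : p j ≤ Ideal.absNorm P.asIdeal := by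
    have h1 : ((Ideal.absNorm P.asIdeal : ℕ) : 𝓞 K) ∈ P.asIdeal := Ideal.absNorm_mem _
    have h2 : ((Ideal.absNorm P.asIdeal : ℕ) : 𝓞 Qbar) ∈ Q := by
      have : f ((Ideal.absNorm P.asIdeal : ℕ) : 𝓞 K) ∈ Q := h1
      rwa [map_natCast] at this
    refine Nat.le_of_dvd ?_ (hQn _ h2)
    exact lt_trans one_pos (HeightOneSpectrum.one_lt_absNorm P)
  -- the inertia property
  have : NeZero (mm p j * p j) := ⟨mul_ne_zero (NeZero.ne _) (hp j).out.ne_zero⟩
  have hle : K ≤ Cy (mm p j * p j) := Kt_le_Cy p (j + 1) _ (by rw [mm_succ])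
  have hinert : ∀ x : 𝓞 K, ∃ y : 𝓞 K, (y : K) = τ' x ∧ y - x ∈ P.asIdeal := by
    intro x
    refine ⟨RingOfIntegers.mapRingHom (τ' : K →+* K) x, rfl, ?_⟩
    show f (_ - _) ∈ Q
    have h1 := trivial_mod (mm p j) (p j) τ hτ1 Q hpQ
      (RingOfIntegers.mapRingHom (IntermediateField.inclusion hle : K →+* Cy (mm p j * p j)) x)
    rw [map_sub]
    exact h1
  have hmain := height_ge P τ' hinert (algebraMap K Qbar) ⟨α, hα⟩ (by
    intro h0
    have h1 := congrArg (fun y : K => (y : Qbar)) h0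
    have h2 : τ α = α := h1
    rw [hagree α hα] at h2
    exact hσα h2)
  have hlog : Real.log (p j) ≤ Real.log (Ideal.absNorm P.asIdeal) := by
    apply Real.log_le_log
    · exact_mod_cast (hp j).out.pos
    · exact_mod_cast hnorm
  exact hlog.trans hmain

end tower

end Pool.Agent.R407.USB
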