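import Mathlib
import Pool.Agent.R407.USB.Tower
import Pool.Agent.H58W.HtNorth

set_option autoImplicit false

/-!
# The choice of the primes and the theorem of Northcott for the field
-/

namespace Pool.Agent.R407.USB

open NumberField Module IsDedekindDomain Polynomial
open Pool.Agent.Helper259.AbsHt

/-- primes in an arithmetic progression with a prescribed non-residue -/
lemma exists_prime (ℓ : ℕ) [Fact ℓ.Prime] (hℓ : ℓ ≠ 2) (n B : ℕ) :
    ∃ q : ℕ, q.Prime ∧ B < q ∧ 2 ^ n ∣ q - 1 ∧ ∀ _ : Fact q.Prime, ¬ IsSquare (ℓ : ZMod q) := by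
  have hp : ℓ.Prime := Fact.out
  obtain ⟨a, ha⟩ := FiniteField.exists_nonsquare (F := ZMod ℓ) (by
    rw [ZMod.ringChar_zmod_n]
    exact hℓ)
  have ha0 : a ≠ 0 := by
    rintro rfl
    exact ha (IsSquare.zero)
  have hodd : Odd ℓ := hp.odd_of_ne_two hℓ
  have hcop : (2 ^ (n + 2)).Coprime ℓ := (Nat.coprime_two_left.2 hodd).pow_left _
  obtain ⟨c, hc1, hc2⟩ := Nat.chineseRemainder hcop 1 a.val
  have hcc : c.Coprime (2 ^ (n + 2) * ℓ) := by
    apply Nat.Coprime.mul_right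
    · rw [Nat.Coprime, hc1.gcd_eq]
      simp
    · rw [Nat.Coprime, hc2.gcd_eq]
      apply Nat.Coprime.symm
      rw [hp.coprime_iff_not_dvd]
      intro hdvd
      have h1 := Nat.le_of_dvd (Nat.pos_of_ne_zero (by rwa [Ne, ZMod.val_eq_zero])) hdvd
      have h2 := ZMod.val_lt a
      omega
  have : NeZero (2 ^ (n + 2) * ℓ) := ⟨mul_ne_zero (by positivity) hp.ne_zero⟩
  obtain ⟨q, hqB, hq, hqc⟩ := Nat.forall_exists_prime_gt_and_eq_mod
    ((ZMod.isUnit_iff_coprime c (2 ^ (n + 2) * ℓ)).2 hcc) B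
  have hmod : q ≡ c [MOD 2 ^ (n + 2) * ℓ] := (ZMod.natCast_eq_natCast_iff _ _ _).1 hqc
  have hq1 : q ≡ 1 [MOD 2 ^ (n + 2)] := (hmod.of_mul_right _).trans hc1
  have hq2 : q ≡ a.val [MOD ℓ] := (hmod.of_mul_left _).trans hc2
  have hq4 : q % 4 = 1 := by
    have h1 : q ≡ 1 [MOD 4] := hq1.of_dvd (by
      rw [pow_add]
      exact Dvd.intro_left _ rfl)
    exact h1
  refine ⟨q, hq, hqB, ?_, fun hf => ?_⟩
  · have h1 : q ≡ 1 [MOD 2 ^ n] := hq1.of_dvd (pow_dvd_pow 2 (by omega))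
    exact (Nat.modEq_iff_dvd' hq.one_lt.le).1 h1.symm
  · rw [ZMod.exists_sq_eq_prime_iff_of_mod_four_eq_one hq4 hℓ]
    have h1 : (q : ZMod ℓ) = a := by
      have h2 := (ZMod.natCast_eq_natCast_iff _ _ _).2 hq2
      rw [h2, ZMod.natCast_zmod_val]
    rw [h1]
    exact ha

/-- the target primes -/
def tg (j : ℕ) : ℕ := if (Nat.unpair j).1.Prime ∧ (Nat.unpair j).1 ≠ 2 then (Nat.unpair j).1 else 3

lemma tg_prime (j : ℕ) : (tg j).Prime ∧ tg j ≠ 2 := by
  unfold tg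
  split_ifs with h
  · exact h
  · exact ⟨Nat.prime_three, by norm_num⟩

lemma tg_pair (ℓ N : ℕ) (hℓ : ℓ.Prime) (hℓ2 : ℓ ≠ 2) : tg (Nat.pair ℓ N) = ℓ := by
  unfold tg
  rw [Nat.unpair_pair, if_pos ⟨hℓ, hℓ2⟩]

/-- the size of the primes -/
noncomputable def bd (j : ℕ) : ℕ :=
  j + ⌈Real.exp (2 ^ ((j + 1) * (j + 1)) * (1 + 2 * j))⌉₊

lemma exists_pr (j B : ℕ) : ∃ q : ℕ, q.Prime ∧ max (bd j) B < q ∧ 2 ^ j ∣ q - 1 ∧
    ∀ _ : Fact q.Prime, ¬ IsSquare (tg j : ZMod q) := by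
  have : Fact (tg j).Prime := ⟨(tg_prime j).1⟩
  exact exists_prime (tg j) (tg_prime j).2 j (max (bd j) B)

/-- the chosen primes -/
noncomputable def pr : ℕ → ℕ
  | 0 => (exists_pr 0 0).choose
  | (j + 1) => (exists_pr (j + 1) (pr j)).choose

lemma pr_spec (j : ℕ) : (pr j).Prime ∧ bd j < pr j ∧ 2 ^ j ∣ pr j - 1 ∧
    ∀ _ : Fact (pr j).Prime, ¬ IsSquare (tg j : ZMod (pr j)) := by
  cases j with
  | zero =>
    have h := (exists_pr 0 0).choose_spec
    exact ⟨h.1, (le_max_left _ _).trans_lt h.2.1, h.2.2.1, h.2.2.2⟩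
  | succ j =>
    have h := (exists_pr (j + 1) (pr j)).choose_spec
    exact ⟨h.1, (le_max_left _ _).trans_lt h.2.1, h.2.2.1, h.2.2.2⟩

lemma pr_mono : StrictMono pr := by
  apply strictMono_nat_of_lt_succ
  intro j
  have h := (exists_pr (j + 1) (pr j)).choose_spec
  exact (le_max_right _ _).trans_lt h.2.1

instance pr_fact (i : ℕ) : Fact (pr i).Prime := ⟨(pr_spec i).1⟩

lemma mm_coprime (j : ℕ) : (mm pr j).Coprime (pr j) := by
  apply Nat.Coprime.prod_left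
  intro i hi
  rw [Finset.mem_range] at hi
  exact (Nat.coprime_primes (pr_spec i).1 (pr_spec j).1).2 (pr_mono hi).ne

/-- new elements have large height -/
theorem new_height (j : ℕ) (α : Qbar) (hα : α ∈ Kt pr (j + 1)) (hα' : α ∉ Kt pr j) :
    (j : ℝ) ≤ absLogHeight ![1, α] := by
  have h1 := step pr j (mm_coprime j) α hα hα'
  have h2 : (finrank ℚ (Kt pr (j + 1)) : ℝ) ≤ 2 ^ ((j + 1) * (j + 1)) := by
    exact_mod_cast finrank_Kt pr (j + 1)
  have h3 : (2 : ℝ) ^ ((j + 1) * (j + 1)) * (1 + 2 * j) ≤ Real.log (pr j) := by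
    rw [Real.le_log_iff_exp_le (by exact_mod_cast (pr_spec j).1.pos)]
    have h4 : (⌈Real.exp (2 ^ ((j + 1) * (j + 1)) * (1 + 2 * j))⌉₊ : ℝ) ≤ pr j := by
      have h5 := (pr_spec j).2.1
      unfold bd at h5
      exact_mod_cast (by omega : ⌈Real.exp (2 ^ ((j + 1) * (j + 1)) * (1 + 2 * j))⌉₊ ≤ pr j)
    exact (Nat.le_ceil _).trans h4
  by_contra hcon
  push Not at hcon
  have h0 := absLogHeight_nonneg ![1, α]
  have hl2 : Real.log 2 < 1 := by
    have := Real.log_two_lt_d9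
    linarith
  have hl20 : 0 < Real.log 2 := Real.log_pos (by norm_num)
  have h5 : (finrank ℚ (Kt pr (j + 1)) : ℝ) * (Real.log 2 + 2 * absLogHeight ![1, α]) ≤
      2 ^ ((j + 1) * (j + 1)) * (Real.log 2 + 2 * absLogHeight ![1, α]) :=
    mul_le_mul_of_nonneg_right h2 (by linarith)
  have h6 : (2 : ℝ) ^ ((j + 1) * (j + 1)) * (Real.log 2 + 2 * absLogHeight ![1, α]) <
      2 ^ ((j + 1) * (j + 1)) * (1 + 2 * j) :=
    mul_lt_mul_of_pos_left (by linarith) (by positivity)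
  linarith

/-- the field -/
noncomputable def FF : IntermediateField ℚ Qbar := ⨆ j, Kt pr j

lemma Kt_mono : Monotone (Kt pr) := monotone_nat_of_le_succ fun j => by
  show Kt pr j ≤ Kt pr j ⊔ Lf (pr j) j
  exact le_sup_left

lemma mem_FF (x : Qbar) : x ∈ FF ↔ ∃ j, x ∈ Kt pr j := by
  have h := IntermediateField.coe_iSup_of_directed (Kt_mono.directed_le)
  unfold FF
  rw [← SetLike.mem_coe, h, Set.mem_iUnion]
  rfl

/-- the field has the property of Northcott -/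
theorem northcott_FF (B : ℝ) : {α : Qbar | α ∈ FF ∧ absLogHeight ![1, α] ≤ B}.Finite := by
  obtain ⟨N, hN⟩ := exists_nat_gt B
  refine (Pool.Agent.H58W.northcott (finrank ℚ (Kt pr N)) B).subset ?_
  rintro α ⟨hα, hB⟩
  have hmem : α ∈ Kt pr N := by
    classical
    rw [mem_FF] at hα
    have h1 := Nat.find_spec hα
    set j := Nat.find hα with hj
    rcases Nat.eq_zero_or_pos j with h0 | h0
    · rw [h0] at h1
      exact Kt_mono (Nat.zero_le N) h1
    · obtain ⟨i, hi⟩ : ∃ i, j = i + 1 := ⟨j - 1, by omega⟩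
      rw [hi] at h1
      have h2 : α ∉ Kt pr i := Nat.find_min hα (by omega)
      have h3 := new_height i α h1 h2
      have h4 : (i : ℝ) < N := by linarith
      have h5 : i < N := by exact_mod_cast h4
      exact Kt_mono (by omega : i + 1 ≤ N) h1
  refine ⟨?_, hB⟩
  have h2 : minpoly ℚ α = minpoly ℚ (⟨α, hmem⟩ : Kt pr N) := by
    rw [← minpoly.algebraMap_eq (algebraMap (Kt pr N) Qbar).injective]
    rfl
  rw [h2]
  exact minpoly.natDegree_le _

lemma FF_stable (ρ : Gam) (x : Qbar) (hx : x ∈ FF) : ρ x ∈ FF := by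
  rw [mem_FF] at hx ⊢
  obtain ⟨j, hj⟩ := hx
  exact ⟨j, (IntermediateField.normal_iff_forall_map_le' (K := Kt pr j)).1 (Kt_normal pr j) ρ
    ⟨x, hj, rfl⟩⟩

end Pool.Agent.R407.USB
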