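import Mathlib

set_option autoImplicit false

/-!
# The Frobenius automorphism of the algebraic closure of a completion
-/

namespace Pool.Agent.R407.USB

open NumberField Module IsDedekindDomain Polynomial

section local_part

variable {K : Type*} [Field K] [NumberField K] (v : HeightOneSpectrum (𝓞 K))

lemma val_algebraMap (x : K) :
    Valued.v (algebraMap K (v.adicCompletion K) x) = v.valuation K x :=
  HeightOneSpectrum.valuedAdicCompletion_eq_valuation' v x

lemma dense_int (a : v.adicCompletion K) (ha : Valued.v a ≤ 1) :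
    ∃ z : 𝓞 K, Valued.v (a - algebraMap K (v.adicCompletion K) z) < 1 := by
  have hd := HeightOneSpectrum.denseRange_algebraMap (R := 𝓞 K) K v
  obtain ⟨x, hx⟩ : ∃ x : K, Valued.v (algebraMap K (v.adicCompletion K) x - a) < 1 := by
    have h1 : {y : v.adicCompletion K | Valued.v (y - a) < 1} ∈ nhds a := by
      rw [Valued.mem_nhds]
      exact ⟨1, by simp⟩
    obtain ⟨y, hy1, x, rfl⟩ := mem_closure_iff_nhds.1 (hd a) _ h1
    exact ⟨x, hy1⟩
  have hx1 : v.valuation K x ≤ 1 := by
    rw [← val_algebraMap v x]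
    have : algebraMap K (v.adicCompletion K) x =
      (algebraMap K (v.adicCompletion K) x - a) + a := by ring
    rw [this]
    exact (Valuation.map_add _ _ _).trans (max_le hx.le ha)
  obtain ⟨z, hz⟩ := HeightOneSpectrum.exists_valuation_sub_lt_of_integer v hx1 1
  refine ⟨z, ?_⟩
  have h2 : Valued.v (algebraMap K (v.adicCompletion K) z -
      algebraMap K (v.adicCompletion K) x) < 1 := by
    rw [← map_sub, val_algebraMap]
    simpa using hz
  have h5 : a - algebraMap K (v.adicCompletion K) z =
      -((algebraMap K (v.adicCompletion K) x - a) +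
        (algebraMap K (v.adicCompletion K) z - algebraMap K (v.adicCompletion K) x)) := by
    ring
  rw [h5, Valuation.map_neg]
  exact lt_of_le_of_lt (Valuation.map_add _ _ _) (max_lt hx h2)

/-- the residue field of the completion is the field with `ℓ` elements -/
lemma residue_pow (ℓ : ℕ) (hres : ∀ x : 𝓞 K, x ^ ℓ - x ∈ v.asIdeal) (a : v.adicCompletionIntegers K) :
    a ^ ℓ - a ∈ IsLocalRing.maximalIdeal (v.adicCompletionIntegers K) := by
  have key : ∀ b : v.adicCompletionIntegers K,
      b ∈ IsLocalRing.maximalIdeal (v.adicCompletionIntegers K) ↔ Valued.v (b : v.adicCompletion K) < 1 := by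
    intro b
    rw [IsLocalRing.mem_maximalIdeal, mem_nonunits_iff,
      HeightOneSpectrum.adicCompletionIntegers.isUnit_iff_valued_eq_one]
    have : Valued.v (b : v.adicCompletion K) ≤ 1 := b.2
    exact ⟨fun h => lt_of_le_of_ne this h, fun h => h.ne⟩
  obtain ⟨z, hz⟩ := dense_int v (a : v.adicCompletion K) a.2
  set z' : v.adicCompletionIntegers K := algebraMap (𝓞 K) (v.adicCompletionIntegers K) z with hz'
  have hz'' : (z' : v.adicCompletion K) = algebraMap K (v.adicCompletion K) z := rfl
  have h1 : a - z' ∈ IsLocalRing.maximalIdeal (v.adicCompletionIntegers K) := by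
    rw [key]
    exact hz
  have h2 : z' ^ ℓ - z' ∈ IsLocalRing.maximalIdeal (v.adicCompletionIntegers K) := by
    rw [hz', ← map_pow, ← map_sub, key]
    show Valued.v (algebraMap K (v.adicCompletion K) ((z ^ ℓ - z : 𝓞 K) : K)) < 1
    rw [val_algebraMap, HeightOneSpectrum.valuation_lt_one_iff_mem]
    exact hres z
  have h3 : a ^ ℓ - z' ^ ℓ ∈ IsLocalRing.maximalIdeal (v.adicCompletionIntegers K) := by
    obtain ⟨c, hc⟩ := sub_dvd_pow_sub_pow a z' ℓ
    rw [hc]
    exact Ideal.mul_mem_right _ _ h1
  have h4 : a ^ ℓ - a = (a ^ ℓ - z' ^ ℓ) + (z' ^ ℓ - z') - (a - z') := by ring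
  rw [h4]
  exact Ideal.sub_mem _ (Ideal.add_mem _ h3 h2) h1

/-- Frobenius: conjugacy of a root of unity with its `ℓ`-th power -/
lemma conj_root (ℓ : ℕ) [Fact ℓ.Prime] (hℓ : (ℓ : 𝓞 K) ∈ v.asIdeal)
    (hres : ∀ x : 𝓞 K, x ^ ℓ - x ∈ v.asIdeal) (p : ℕ) [Fact p.Prime] (hpl : p ≠ ℓ)
    (ζ : AlgebraicClosure (v.adicCompletion K)) (hζ : ζ ^ p = 1) :
    IsConjRoot (v.adicCompletion K) ζ (ζ ^ ℓ) := by
  set O := v.adicCompletionIntegers K with hO
  set k := IsLocalRing.ResidueField O with hk
  have hpp : p.Prime := Fact.out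
  have hlp : ℓ.Prime := Fact.out
  -- the residue field
  have hk1 : ∀ y : k, y ^ ℓ = y := by
    intro y
    obtain ⟨a, rfl⟩ := IsLocalRing.residue_surjective y
    rw [← map_pow, ← sub_eq_zero, ← map_sub, IsLocalRing.residue_eq_zero_iff]
    exact residue_pow v ℓ hres a
  have hk2 : (ℓ : k) = 0 := by
    have h1 : (ℓ : k) = IsLocalRing.residue O (algebraMap (𝓞 K) O (ℓ : 𝓞 K)) := by
      rw [map_natCast, map_natCast]
    rw [h1, IsLocalRing.residue_eq_zero_iff, IsLocalRing.mem_maximalIdeal, mem_nonunits_iff,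
      HeightOneSpectrum.adicCompletionIntegers.isUnit_iff_valued_eq_one]
    have h2 : Valued.v ((algebraMap (𝓞 K) O (ℓ : 𝓞 K) : O) : v.adicCompletion K) < 1 := by
      show Valued.v (algebraMap K (v.adicCompletion K) ((ℓ : 𝓞 K) : K)) < 1
      rw [val_algebraMap, HeightOneSpectrum.valuation_lt_one_iff_mem]
      exact hℓ
    exact h2.ne
  have hchar : CharP k ℓ := by
    have h1 : ringChar k ∣ ℓ := ringChar.dvd hk2
    rcases (Nat.dvd_prime hlp).1 h1 with h | h
    · exfalso
      have := ringChar.of_eq h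
      exact CharP.false_of_nontrivial_of_char_one (R := k)
    · exact ringChar.of_eq h
  have hpk : (p : k) ≠ 0 := by
    intro h0
    rw [CharP.cast_eq_zero_iff k ℓ] at h0
    exact hpl ((Nat.prime_dvd_prime_iff_eq hlp hpp).1 h0).symm
  have hfrob : frobenius k ℓ = RingHom.id k := by
    ext y
    simp [frobenius_def, hk1]
  have hexp : ∀ f : k[X], expand k ℓ f = f ^ ℓ := by
    intro f
    have := map_frobenius_expand ℓ (f := f)
    rw [hfrob, Polynomial.map_id] at this
    exact this
  -- integrality
  have hint : IsIntegral O ζ := by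
    refine ⟨X ^ p - 1, monic_X_pow_sub_C 1 hpp.ne_zero, ?_⟩
    simp [hζ]
  have htf : Module.IsTorsionFree O (AlgebraicClosure (v.adicCompletion K)) := by
    refine .of_smul_eq_zero fun a x hax => ?_
    have h1 : (a : v.adicCompletion K) • x = 0 := hax
    rcases smul_eq_zero.1 h1 with h2 | h2
    · left
      exact Subtype.ext h2
    · right
      exact h2
  set g := minpoly O ζ with hg
  have hgm : g.Monic := minpoly.monic hint
  have hgK : minpoly (v.adicCompletion K) ζ = g.map (algebraMap O (v.adicCompletion K)) :=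
    minpoly.isIntegrallyClosed_eq_field_fractions' (v.adicCompletion K) hint
  obtain ⟨h, hh⟩ := minpoly.isIntegrallyClosed_dvd hint (p := (X ^ p - 1 : O[X])) (by simp [hζ])
  have key : aeval (ζ ^ ℓ) g = 0 := by
    by_contra hne
    have h1 : aeval (ζ ^ ℓ) (X ^ p - 1 : O[X]) = 0 := by
      have h0 : (ζ ^ ℓ) ^ p = 1 := by rw [← pow_mul, mul_comm, pow_mul, hζ, one_pow]
      simp [h0]
    rw [hh, map_mul, mul_eq_zero] at h1
    have h2 := h1.resolve_left hne
    have h3 : aeval ζ (expand O ℓ h) = 0 := by
      rw [expand_aeval]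
      exact h2
    have h4 := minpoly.isIntegrallyClosed_dvd hint h3
    rw [← hg] at h4
    have h5 := Polynomial.map_dvd (IsLocalRing.residue O) h4
    rw [map_expand, hexp] at h5
    -- an irreducible factor
    have hgk : (g.map (IsLocalRing.residue O)).natDegree ≠ 0 := by
      rw [hgm.natDegree_map]
      exact (minpoly.natDegree_pos hint).ne'
    obtain ⟨q, hq, hqg⟩ := Polynomial.exists_irreducible_of_natDegree_ne_zero hgk
    have h6 : q ∣ h.map (IsLocalRing.residue O) := hq.prime.dvd_of_dvd_pow (hqg.trans h5)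
    have h7 : q * q ∣ (X ^ p - 1 : k[X]) := by
      have : (X ^ p - 1 : k[X]) = (g.map (IsLocalRing.residue O)) * h.map (IsLocalRing.residue O) := by
        rw [← Polynomial.map_mul, ← hh]
        simp
      rw [this]
      exact mul_dvd_mul hqg h6
    have h8 : (X ^ p - 1 : k[X]).Separable := by
      rw [X_pow_sub_one_separable_iff]
      exact hpk
    exact hq.not_isUnit (h8.squarefree q h7)
  have key2 : aeval (ζ ^ ℓ) (minpoly (v.adicCompletion K) ζ) = 0 := by
    rw [hgK, aeval_map_algebraMap]
    exact key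
  rw [isConjRoot_def]
  have hintK : IsIntegral (v.adicCompletion K) ζ := Algebra.IsIntegral.isIntegral ζ
  exact minpoly.eq_of_irreducible_of_monic (minpoly.irreducible hintK) key2 (minpoly.monic hintK)

/-- a lower bound for the degree by the number of conjugates -/
lemma le_natDegree {F E : Type*} [Field F] [Field E] [Algebra F E] (x : E) (hx : IsIntegral F x)
    (φ : E ≃ₐ[F] E) (m : ℕ) (hinj : ∀ i j : ℕ, i < j → j < m → (φ ^ i) x ≠ (φ ^ j) x) :
    m ≤ (minpoly F x).natDegree := by
  classical
  have h1 : ∀ i : ℕ, aeval ((φ ^ i) x) (minpoly F x) = 0 := by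
    intro i
    rw [aeval_algHom_apply (φ ^ i : E ≃ₐ[F] E) x (minpoly F x), minpoly.aeval, map_zero]
  have h2 : ((Finset.range m).image fun i => (φ ^ i) x) ⊆ ((minpoly F x).aroots E).toFinset := by
    intro y hy
    obtain ⟨i, -, rfl⟩ := Finset.mem_image.1 hy
    rw [Multiset.mem_toFinset, mem_aroots]
    exact ⟨minpoly.ne_zero hx, h1 i⟩
  have h3 : ((Finset.range m).image fun i => (φ ^ i) x).card = m := by
    rw [Finset.card_image_of_injOn, Finset.card_range]
    intro i hi j hj hij
    simp only [Finset.coe_range, Set.mem_Iio] at hi hj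
    rcases lt_trichotomy i j with h | h | h
    · exact absurd hij (hinj i j h hj)
    · exact h
    · exact absurd hij.symm (hinj j i h hi)
  calc m = _ := h3.symm
    _ ≤ _ := Finset.card_le_card h2
    _ ≤ Multiset.card ((minpoly F x).aroots E) := Multiset.toFinset_card_le _
    _ ≤ _ := (card_roots' _).trans natDegree_map_le

end local_part

end Pool.Agent.R407.USB
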