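import Mathlib
import Pool.Agent.R407.USB.Loc
import Pool.Agent.R407.USB.Chi

set_option autoImplicit false

/-!
# The local degree of the fields of two-power degree
-/

namespace Pool.Agent.R407.USB

open NumberField Module IsDedekindDomain Polynomial
open Pool.Agent.Helper259.AbsHt (Qbar)

lemma unit_lemma (p n : ℕ) [Fact p.Prime] (hdvd : 2 ^ n ∣ p - 1) (u : (ZMod p)ˣ)
    (hu : ¬ ∃ y : (ZMod p)ˣ, y ^ 2 = u) (k : ℕ)
    (hk : u ^ k ∈ (powMonoidHom (2 ^ n) : (ZMod p)ˣ →* (ZMod p)ˣ).range) : 2 ^ n ∣ k := by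
  have hp : p.Prime := Fact.out
  rcases Nat.eq_zero_or_pos n with rfl | hn
  · simp
  rcases Nat.eq_zero_or_pos k with rfl | hk0
  · exact dvd_zero _
  obtain ⟨M, hM⟩ := hdvd
  obtain ⟨m, rfl⟩ : ∃ m, n = m + 1 := ⟨n - 1, by omega⟩
  have hp1 : p = 2 ^ (m + 1) * M + 1 := by
    have := hp.two_le
    omega
  have hhalf : p / 2 = 2 ^ m * M := by
    rw [hp1, pow_succ]
    have : 2 ^ m * 2 * M + 1 = 2 * (2 ^ m * M) + 1 := by ring
    rw [this]
    omega
  obtain ⟨t, ht⟩ := hk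
  rw [powMonoidHom_apply] at ht
  -- `k = 2^a * k'`
  obtain ⟨a, k', hk', rfl⟩ := Nat.exists_eq_two_pow_mul_odd hk0.ne'
  by_contra hcon
  have ha : a < m + 1 := by
    by_contra h
    push Not at h
    exact hcon ((pow_dvd_pow 2 h).mul_right _)
  have hcard : ∀ x : (ZMod p)ˣ, x ^ (p - 1) = 1 := fun x => ZMod.units_pow_card_sub_one_eq_one p x
  have h1 : u ^ (2 ^ a * k' * M) = 1 := by
    rw [pow_mul, ← ht, ← pow_mul, ← hM]
    exact hcard t
  have h2 : (u ^ (p / 2)) ^ k' = 1 := by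
    rw [← pow_mul, hhalf]
    have : 2 ^ m * M * k' = 2 ^ a * k' * M * 2 ^ (m - a) := by
      have e : 2 ^ m = 2 ^ a * 2 ^ (m - a) := by
        rw [← pow_add]
        congr 1
        omega
      rw [e]
      ring
    rw [this, pow_mul, h1, one_pow]
  have h3 : (u ^ (p / 2)) ^ 2 = 1 := by
    rw [← pow_mul]
    have : p / 2 * 2 = p - 1 := by
      rw [hhalf, hM, pow_succ]
      ring
    rw [this]
    exact hcard u
  have h4 : u ^ (p / 2) = 1 := by
    obtain ⟨j, rfl⟩ := hk'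
    rw [pow_succ, pow_mul, h3, one_pow, one_mul] at h2
    exact h2
  exact hu ((ZMod.euler_criterion_units p u).2 h4)

lemma dvd_of_fix (p n : ℕ) [Fact p.Prime] (hdvd : 2 ^ n ∣ p - 1) (s : Gam)
    (hs : ¬ ∃ y : (ZMod p)ˣ, y ^ 2 = chi p s) (k : ℕ) (hk : ∀ x ∈ Lf p n, (s ^ k) x = x) :
    2 ^ n ∣ k := by
  have h1 : s ^ k ∈ (Lf p n).fixingSubgroup := by
    rw [IntermediateField.mem_fixingSubgroup_iff]
    exact hk
  rw [fixing_Lf, Hsub, Subgroup.mem_comap, map_pow] at h1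
  exact unit_lemma p n hdvd _ hs k h1

lemma exists_gen (p n : ℕ) [Fact p.Prime] :
    ∃ η : Qbar, IntermediateField.adjoin ℚ {η} = Lf p n := by
  have hfd : @FiniteDimensional ℚ (Lf p n) _ _
      (@Algebra.toModule _ _ _ _ (IntermediateField.algebra' (Lf p n))) := finite_Lf p n
  obtain ⟨η, hη⟩ := @Field.exists_primitive_element ℚ (Lf p n) _ _
    (IntermediateField.algebra' (Lf p n)) hfd (galois_Lf' p n).to_isSeparable
  refine ⟨(η : Qbar), ?_⟩
  rw [← IntermediateField.lift_adjoin_simple, hη, IntermediateField.lift_top]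

/-- the local degree at a non-residue is large -/
theorem local_degree {K : Type*} [Field K] [NumberField K] (v : HeightOneSpectrum (𝓞 K))
    (ℓ : ℕ) [Fact ℓ.Prime] (hℓ : (ℓ : 𝓞 K) ∈ v.asIdeal)
    (hres : ∀ x : 𝓞 K, x ^ ℓ - x ∈ v.asIdeal) (p n : ℕ) [Fact p.Prime] (hpl : p ≠ ℓ)
    (hdvd : 2 ^ n ∣ p - 1) (hns : ¬ IsSquare (ℓ : ZMod p))
    (ι : Qbar →+* AlgebraicClosure (v.adicCompletion K)) :
    ∃ η ∈ Lf p n, 2 ^ n ≤ (minpoly (v.adicCompletion K) (ι η)).natDegree := by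
  set Ω := AlgebraicClosure (v.adicCompletion K) with hΩ
  -- the Frobenius automorphism
  obtain ⟨ζ, hζ⟩ := HasEnoughRootsOfUnity.exists_primitiveRoot Qbar p
  have hζ1 : (ι ζ) ^ p = 1 := by rw [← map_pow, hζ.pow_eq_one, map_one]
  obtain ⟨φ, hφ⟩ := (isConjRoot_iff_exists_algEquiv (K := v.adicCompletion K) (x := (ι ζ) ^ ℓ)
    (y := ι ζ)).mp (by
      have := conj_root v ℓ hℓ hres p hpl (ι ζ) hζ1
      rw [isConjRoot_def] at this ⊢
      exact this.symm)
  let _ : Algebra Qbar Ω := ι.toAlgebra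
  have hst : @IsScalarTower ℚ Qbar Ω Algebra.toSMul Algebra.toSMul Algebra.toSMul :=
    IsScalarTower.of_algebraMap_eq' (Subsingleton.elim _ _)
  let φ' : Ω ≃ₐ[ℚ] Ω := AlgEquiv.ofRingEquiv (f := φ.toRingEquiv) (fun x => by
    simp)
  let s : Gam := φ'.restrictNormal Qbar
  have hs : ∀ x : Qbar, ι (s x) = φ (ι x) := fun x => AlgEquiv.restrictNormal_commutes φ' Qbar x
  have hsζ : s ζ = ζ ^ ℓ := by
    apply ι.injective
    rw [hs, hφ, map_pow]
  have hchi : (chi p s : ZMod p) = (ℓ : ZMod p) := by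
    refine chi_unique p s _ fun z hz => ?_
    obtain ⟨i, -, rfl⟩ := hζ.eq_pow_of_pow_eq_one hz
    rw [map_pow, hsζ, ← pow_mul, ← pow_mul, mul_comm, pow_mul, pow_mul]
    apply pow_eq_of_modEq hz
    rw [ZMod.val_natCast]
    exact (Nat.mod_modEq _ _).symm
  have hns' : ¬ ∃ y : (ZMod p)ˣ, y ^ 2 = chi p s := by
    rintro ⟨y, hy⟩
    apply hns
    refine ⟨(y : ZMod p), ?_⟩
    rw [← hchi, ← hy]
    push_cast
    ring
  -- a primitive element
  obtain ⟨η, h0⟩ := exists_gen p n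
  refine ⟨η, h0 ▸ IntermediateField.mem_adjoin_simple_self ℚ η, ?_⟩
  have hfix : ∀ k : ℕ, (s ^ k) η = η → ∀ x ∈ Lf p n, (s ^ k) x = x := by
    intro k hk x hx
    have h1 : IntermediateField.adjoin ℚ {(η : Qbar)} ≤
        IntermediateField.fixedField (Subgroup.zpowers (s ^ k)) := by
      rw [IntermediateField.adjoin_le_iff, Set.singleton_subset_iff, SetLike.mem_coe,
        IntermediateField.mem_fixedField_iff]
      rintro f ⟨m, rfl⟩
      have h3 : s ^ k ∈ MulAction.stabilizer Gam (η : Qbar) := hk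
      exact (MulAction.stabilizer Gam (η : Qbar)).zpow_mem h3 m
    rw [h0] at h1
    have h2 := h1 hx
    rw [IntermediateField.mem_fixedField_iff] at h2
    exact h2 _ (Subgroup.mem_zpowers _)
  have hpow : ∀ (k : ℕ) (x : Qbar), ι ((s ^ k) x) = (φ ^ k) (ι x) := by
    intro k
    induction k with
    | zero => intro x; simp
    | succ k ih =>
      intro x
      rw [pow_succ, pow_succ, AlgEquiv.mul_apply, AlgEquiv.mul_apply, ih, hs]
  refine le_natDegree (ι η) (Algebra.IsIntegral.isIntegral _) φ (2 ^ n) fun i j hij hj heq => ?_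
  rw [← hpow, ← hpow] at heq
  have h1 := ι.injective heq
  have h2 : (s ^ (j - i)) (η : Qbar) = η := by
    have h3 : s ^ j = s ^ i * s ^ (j - i) := by
      rw [← pow_add]
      congr 1
      omega
    rw [h3, AlgEquiv.mul_apply] at h1
    exact ((s ^ i).injective h1).symm
  have h4 := dvd_of_fix p n hdvd s hns' (j - i) (hfix _ h2)
  have h5 := Nat.le_of_dvd (by omega) h4
  omega

end Pool.Agent.R407.USB
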